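import Pool.Agent.Helper56.RZ.GoalsB

/-! # RZ: non-periodic points (packet NP) -/

set_option autoImplicit false

open Set Filter Topology MeasureTheory

open scoped ContDiff

namespace Pool.Agent.Helper85.RZ

open Pool.Agent.Helper56.RZ

section basic

variable {K : ℕ} {M : Set (E K)} {f f' : E K → E K} {P : Fin 3 → E K → End K}

theorem iter_left (h : IsDiffeo 1 M f f') (k : ℕ) (x : E K) (hx : x ∈ M) :
    f'^[k] (f^[k] x) = x := by
  induction k with
  | zero => rfl
  | succ k ih =>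
    have hm : f^[k] x ∈ M := h.maps.iterate k hx
    rw [Function.iterate_succ_apply' f, Function.iterate_succ_apply f', h.left _ hm]
    exact ih

theorem PiP (h : PH M f f' P) (x : E K) (hx : x ∈ M) (i : Fin 3) : Pi M x * P i x = P i x := by
  rw [← h.sum x hx, add_mul, add_mul, h.proj x hx, h.proj x hx, h.proj x hx]
  fin_cases i <;> simp

theorem PPi (h : PH M f f' P) (x : E K) (hx : x ∈ M) (i : Fin 3) : P i x * Pi M x = P i x := by
  rw [← h.sum x hx, mul_add, mul_add, h.proj x hx, h.proj x hx, h.proj x hx]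
  fin_cases i <;> simp

theorem diff (h : IsDiffeo 1 M f f') : DifferentiableOn ℝ f M :=
  h.smooth.differentiableOn one_ne_zero

theorem diff' (h : IsDiffeo 1 M f f') : DifferentiableOn ℝ f' M :=
  h.smooth'.differentiableOn one_ne_zero

/-- the derivative of the inverse commutes with the projections -/
theorem inv' (h2 : StmtT2) (h : IsDiffeo 1 M f f') (hp : PH M f f' P) (x : E K) (hx : x ∈ M)
    (i : Fin 3) : der M f' x * P i x = P i (f' x) * der M f' x := by
  obtain ⟨y, hy⟩ : ∃ y, y = f' x := ⟨_, rfl⟩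
  have hyM : y ∈ M := hy ▸ h.maps' hx
  have hfy : f y = x := by rw [hy]; exact h.right x hx
  have c1 : der M f' x * der M f y = Pi M y := by
    have e1 := (h2 K M f' f y hyM).2.2.1 h.maps (diff h y hyM) (by rw [hfy]; exact diff' h x hx)
    rw [hfy] at e1
    rw [← e1]
    have e2 := (h2 K M (f' ∘ f) id y hyM).2.2.2.2 (fun z hz => h.left z hz)
    rw [e2]
    exact (h2 K M f f y hyM).2.2.2.1
  have c2 : der M f y * der M f' x = Pi M x := by
    have e1 := (h2 K M f f' x hx).2.2.1 h.maps' (diff' h x hx) (by rw [← hy]; exact diff h y hyM)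
    rw [← hy] at e1
    rw [← e1]
    have e2 := (h2 K M (f ∘ f') id x hx).2.2.2.2 (fun z hz => h.right z hz)
    rw [e2]
    exact (h2 K M f f x hx).2.2.2.1
  have c3 := hp.inv y hyM i
  rw [hfy] at c3
  rw [← hy]
  calc der M f' x * P i x = der M f' x * (P i x * Pi M x) := by rw [PPi hp x hx]
    _ = der M f' x * (P i x * (der M f y * der M f' x)) := by rw [c2]
    _ = der M f' x * ((P i x * der M f y) * der M f' x) := by rw [mul_assoc (P i x)]
    _ = der M f' x * ((der M f y * P i y) * der M f' x) := by rw [c3]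
    _ = (der M f' x * der M f y) * P i y * der M f' x := by simp only [mul_assoc]
    _ = P i y * der M f' x := by rw [c1, PiP hp y hyM]

/-- the chain rule for iterates -/
theorem iterD (h2 : StmtT2) (h : IsDiffeo 1 M f f') (a b : ℕ) (x : E K) (hx : x ∈ M) :
    der M (f'^[a + b]) x = der M (f'^[a]) (f'^[b] x) * der M (f'^[b]) x := by
  rw [Function.iterate_add]
  exact (h2 K M (f'^[a]) (f'^[b]) x hx).2.2.1 (h.maps'.iterate b)
    ((diff' h).iterate h.maps' b x hx) ((diff' h).iterate h.maps' a _ (h.maps'.iterate b hx))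

theorem iterP (h2 : StmtT2) (h : IsDiffeo 1 M f f') (hp : PH M f f' P) (k : ℕ) (x : E K)
    (hx : x ∈ M) (i : Fin 3) :
    der M (f'^[k]) x * P i x = P i (f'^[k] x) * der M (f'^[k]) x := by
  induction k with
  | zero =>
    have e : der M (f'^[0]) x = Pi M x := (h2 K M f f x hx).2.2.2.1
    rw [e, PiP hp x hx]
    exact (PPi hp x hx i).symm
  | succ k ih =>
    have hk : f'^[k] x ∈ M := h.maps'.iterate k hx
    have e := iterD h2 h 1 k x hx
    rw [Function.iterate_one, add_comm] at e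
    rw [e, mul_assoc, ih, ← mul_assoc, inv' h2 h hp _ hk, Function.iterate_succ_apply', mul_assoc]

/-- iterated contraction -/
theorem contr (h2 : StmtT2) (h : IsDiffeo 1 M f f') (hp : PH M f f' P) (n : ℕ)
    (hn : ∀ x ∈ M, ∀ v, P 2 x v = v → v ≠ 0 → ‖der M (f'^[n]) x v‖ < ‖v‖) (j : ℕ)
    (x : E K) (hx : x ∈ M) (v : E K) (hv : P 2 x v = v) (hv0 : v ≠ 0) :
    ‖der M (f'^[n * (j + 1)]) x v‖ < ‖v‖ := by
  induction j with
  | zero => simpa using hn x hx v hv hv0
  | succ j ih =>
    have e := iterD h2 h n (n * (j + 1)) x hx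
    rw [show n + n * (j + 1) = n * (j + 1 + 1) by ring] at e
    rw [e, mul_apply_eq_comp]
    obtain ⟨w, hw⟩ : ∃ w, w = der M (f'^[n * (j + 1)]) x v := ⟨_, rfl⟩
    rw [← hw] at ih ⊢
    by_cases hw0 : w = 0
    · rw [hw0, map_zero, norm_zero]
      exact norm_pos_iff.2 hv0
    · have hM : f'^[n * (j + 1)] x ∈ M := h.maps'.iterate _ hx
      have e2 := iterP h2 h hp (n * (j + 1)) x hx 2
      have e3 := congrArg (fun T : End K => T v) e2
      simp only [mul_apply_eq_comp] at e3
      rw [hv, ← hw] at e3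
      exact (hn _ hM w e3.symm hw0).trans ih

end basic

theorem np (h2 : StmtT2) : StmtNP := by
  intro N K M m f f' P U hS hd hp hU hne
  by_contra hcon
  push Not at hcon
  obtain ⟨n, hn1, hn⟩ := hp.dom
  have hn' : ∀ x ∈ M, ∀ v, P 2 x v = v → v ≠ 0 → ‖der M (f'^[n]) x v‖ < ‖v‖ :=
    fun x hx => (hn x hx).2.1
  have : CompactSpace M := isCompact_iff_compactSpace.1 hS.compact
  -- Baire
  have hcl : ∀ j : ℕ, IsClosed {x : M | f^[j + 1] (x : E K) = x} := by
    intro j
    refine isClosed_eq ?_ continuous_subtype_val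
    exact continuousOn_iff_continuous_domRestrict.1
      (((diff hd).iterate hd.maps (j + 1)).continuousOn)
  obtain ⟨V, hV⟩ : ∃ V : Set M, V = ((↑) : M → E K) ⁻¹' U := ⟨_, rfl⟩
  have hVo : IsOpen V := hV ▸ hU.preimage continuous_subtype_val
  have hVn : V.Nonempty := by
    obtain ⟨x, hx, hxU⟩ := hne
    exact ⟨⟨x, hx⟩, by rw [hV]; exact hxU⟩
  have hGc : ∀ j : ℕ, IsClosed ({x : M | f^[j + 1] (x : E K) = x} ∪ Vᶜ) :=
    fun j => (hcl j).union hVo.isClosed_compl
  have hGu : ⋃ j : ℕ, ({x : M | f^[j + 1] (x : E K) = x} ∪ Vᶜ) = univ := by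
    refine eq_univ_of_forall fun x => ?_
    rw [mem_iUnion]
    by_cases hxV : x ∈ V
    · have hxU : (x : E K) ∈ U := by
        rw [hV] at hxV
        exact hxV
      obtain ⟨j, hj1, hj2⟩ := hcon x ⟨x.2, hxU⟩
      refine ⟨j - 1, Or.inl ?_⟩
      change f^[j - 1 + 1] (x : E K) = x
      rw [Nat.sub_add_cancel hj1]
      exact hj2
    · exact ⟨0, Or.inr hxV⟩
  have hD := dense_iUnion_interior_of_closed hGc hGu
  obtain ⟨x0, hx0V, hx0⟩ := hD.inter_open_nonempty V hVo hVn
  rw [mem_iUnion] at hx0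
  obtain ⟨j, hj⟩ := hx0
  -- a neighbourhood on which the iterate is the identity
  have hnb : V ∩ interior ({x : M | f^[j + 1] (x : E K) = x} ∪ Vᶜ) ∈ 𝓝 x0 :=
    (hVo.inter isOpen_interior).mem_nhds ⟨hx0V, hj⟩
  have hid : ∀ᶠ y : M in 𝓝 x0, f^[j + 1] (y : E K) = y := by
    filter_upwards [hnb] with y hy
    rcases interior_subset hy.2 with h | h
    · exact h
    · exact absurd hy.1 h
  have hid2 : ∀ᶠ y in 𝓝[M] (x0 : E K), f^[j + 1] y = y := by
    rw [nhdsWithin_eq_map_subtype_coe x0.2]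
    exact hid
  have hxM : (x0 : E K) ∈ M := x0.2
  have hid3 : ∀ᶠ y in 𝓝[M] (x0 : E K), f'^[n * (j + 1)] y = id y := by
    filter_upwards [hid2, self_mem_nhdsWithin] with y hy hyM
    have e1 : f^[n * (j + 1)] y = y := by
      rw [mul_comm, Function.iterate_mul]
      exact Function.iterate_fixed hy n
    have e2 := iter_left hd (n * (j + 1)) y hyM
    rw [e1] at e2
    exact e2
  have hfix : f'^[n * (j + 1)] (x0 : E K) = id (x0 : E K) := hid3.self_of_nhdsWithin hxM
  have hder : der M (f'^[n * (j + 1)]) x0 = Pi M x0 := by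
    have e1 : fderivWithin ℝ (f'^[n * (j + 1)]) M x0 = fderivWithin ℝ id M x0 :=
      Filter.EventuallyEq.fderivWithin_eq hid3 hfix
    have e2 : der M id (x0 : E K) = Pi M x0 := (h2 K M f f x0 hxM).2.2.2.1
    rw [← e2]
    unfold der
    rw [e1]
  -- a vector
  obtain ⟨w, hw⟩ : ∃ w, P 2 (x0 : E K) w ≠ 0 := by
    by_contra hc
    push Not at hc
    exact hp.ne x0 hxM 2 (ContinuousLinearMap.ext hc)
  obtain ⟨v, hv⟩ : ∃ v, v = P 2 (x0 : E K) w := ⟨_, rfl⟩
  have hv0 : v ≠ 0 := hv ▸ hw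
  have hv1 : P 2 (x0 : E K) v = v := by
    have e1 := hp.proj x0 hxM 2 2
    rw [if_pos rfl] at e1
    have e2 := congrArg (fun T : End K => T w) e1
    simp only [mul_apply_eq_comp] at e2
    rw [← hv] at e2
    exact e2
  have hlt := contr h2 hd hp n hn' j x0 hxM v hv1 hv0
  rw [hder] at hlt
  have e3 : Pi M (x0 : E K) v = v := by
    have e1 := PiP hp x0 hxM 2
    have e2 := congrArg (fun T : End K => T v) e1
    simp only [mul_apply_eq_comp] at e2
    rw [hv1] at e2
    exact e2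
  rw [e3] at hlt
  exact lt_irrefl _ hlt

end Pool.Agent.Helper85.RZ
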