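import Pool.Agent.Helper56.RZ.GoalsD

/-!
Project RZ3, packet GA3: the local perturbation of the identity (with an angle function) preserves
the volume.
-/

set_option autoImplicit false

open Set Filter Topology MeasureTheory

open scoped ContDiff

namespace Pool.Agent.Helper85.RZ

open Pool.Agent.Helper56.RZ

/-- scaling of the volume under the preimage of `y ↦ z0 + ρ y` -/
lemma vol_pre {N : ℕ} (z0 : E N) {ρ : ℝ} (hρ : 0 < ρ) (Z : Set (E N)) :
    volume ((fun y : E N => z0 + ρ • y) ⁻¹' Z)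
      = ENNReal.ofReal |(ρ ^ Module.finrank ℝ (E N))⁻¹| * volume Z := by
  have h1 : (fun y : E N => z0 + ρ • y) ⁻¹' Z = (ρ • ·) ⁻¹' ((fun h => z0 + h) ⁻¹' Z) := rfl
  rw [h1, Measure.addHaar_preimage_smul volume hρ.ne', measure_preimage_add]

theorem ga3 : StmtTA → StmtTV → StmtF1 → StmtGA3 := by
  intro hTA hTV hF1 N K M m c p hV hp d a ha z0 ρ hρ hfit hvol t A hA
  obtain ⟨-, hF1'⟩ := hF1 N p hp
  obtain ⟨-, -, hqs, -, -, -, -, C, hC1, hqC⟩ := hF1' d
  obtain ⟨hHs, hqH, hHH, -, hHid, -, -⟩ := hTA N p hp d a ha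
  have hqc : Continuous d.q := hqs.continuous
  have hHc : ∀ s : ℝ, Continuous (d.Ha a s) := fun s =>
    hHs.continuous.comp (Continuous.prodMk_right s)
  have hF2' := fun s => (hTV N p hp d a ha s).2
  -- the map `L`
  set L : E N → E N := fun y => z0 + ρ • y with hL
  set Li : E N → E N := fun z => ρ⁻¹ • (z - z0) with hLi
  have hLLi : ∀ z, L (Li z) = z := fun z => by
    simp only [hL, hLi]
    rw [smul_inv_smul₀ hρ.ne']
    abel
  have hLiL : ∀ y, Li (L y) = y := fun y => by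
    simp only [hL, hLi]
    rw [add_sub_cancel_left, inv_smul_smul₀ hρ.ne']
  have hLc : Continuous L := by fun_prop
  have hLic : Continuous Li := by fun_prop
  have hloc : ∀ z, d.loca a z0 ρ t z = L (d.Ha a t (Li z)) := fun z => rfl
  have hlocc : Continuous (d.loca a z0 ρ t) := hLc.comp ((hHc t).comp hLic)
  -- the support
  set D : Set (E N) := {z | d.q (Li z) ≤ 1} with hD
  have hDcl : IsClosed D := isClosed_le (hqc.comp hLic) continuous_const
  have hDV : D ⊆ c.V := by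
    intro z hz
    have := hfit (Li z) hz
    have h2 : z0 + ρ • Li z = z := hLLi z
    rwa [h2] at this
  have hDloc : ∀ z, d.loca a z0 ρ t z ∈ D ↔ z ∈ D := by
    intro z
    simp only [hD, mem_ofPred_eq, hloc, hLiL, hqH]
  have hDb : Bornology.IsBounded D := by
    rw [isBounded_iff_forall_norm_le]
    refine ⟨‖z0‖ + ρ * (C + 1), fun z hz => ?_⟩
    have h1 : ‖Li z‖ ^ 2 ≤ C * 1 := by
      have hC : 0 ≤ C := by linarith
      exact (hqC (Li z)).1.trans (mul_le_mul_of_nonneg_left hz hC)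
    have h2 : ‖Li z‖ ≤ C + 1 := by
      nlinarith [norm_nonneg (Li z), sq_nonneg (‖Li z‖ - 1)]
    calc ‖z‖ = ‖L (Li z)‖ := by rw [hLLi]
      _ = ‖z0 + ρ • Li z‖ := rfl
      _ ≤ ‖z0‖ + ‖ρ • Li z‖ := norm_add_le _ _
      _ ≤ ‖z0‖ + ρ * (C + 1) := by
          rw [norm_smul, Real.norm_eq_abs, abs_of_pos hρ]
          gcongr
  have hDcomp : IsCompact D := Metric.isCompact_of_isClosed_isBounded hDcl hDb
  have hψc : ContinuousOn c.ψ D := c.smoothψ.continuousOn.mono hDV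
  set S : Set (E K) := c.ψ '' D with hS
  have hSm : MeasurableSet S := (hDcomp.image_of_continuousOn hψc).measurableSet
  -- the sets in the chart
  set Z2 : Set (E N) := D ∩ c.ψ ⁻¹' A with hZ2
  have hZ2m : MeasurableSet Z2 := by
    have h1 : Measurable (D.domRestrict c.ψ) := (continuousOn_iff_continuous_domRestrict.mp hψc).measurable
    have h2 : Z2 = (fun x : D => (x : E N)) '' ((D.domRestrict c.ψ) ⁻¹' A) := by
      ext z
      constructor
      · rintro ⟨h3, h4⟩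
        exact ⟨⟨z, h3⟩, h4, rfl⟩
      · rintro ⟨⟨w, h3⟩, h4, rfl⟩
        exact ⟨h3, h4⟩
    rw [h2]
    exact hDcl.measurableSet.subtype_image (h1 hA)
  have hZ1m : MeasurableSet (d.loca a z0 ρ t ⁻¹' Z2) := hlocc.measurable hZ2m
  have hZ2V : Z2 ⊆ c.V := fun z hz => hDV hz.1
  have hZ1V : d.loca a z0 ρ t ⁻¹' Z2 ⊆ c.V := fun z hz => hDV ((hDloc z).mp hz.1)
  -- the twist preserves volume
  have hHpre : ∀ B : Set (E N), MeasurableSet B → volume (d.Ha a t ⁻¹' B) = volume B := by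
    intro B hB
    have h1 : d.Ha a t ⁻¹' B = d.Ha a (-t) '' B := by
      ext y
      constructor
      · intro hy
        exact ⟨d.Ha a t y, hy, hHH t y⟩
      · rintro ⟨w, hw, rfl⟩
        have := hHH (-t) w
        rw [neg_neg] at this
        rw [mem_preimage, this]
        exact hw
    rw [h1, hF2' (-t) B hB]
  have hvolZ : volume (d.loca a z0 ρ t ⁻¹' Z2) = volume Z2 := by
    have h1 := vol_pre z0 hρ (d.loca a z0 ρ t ⁻¹' Z2)
    have h2 := vol_pre z0 hρ Z2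
    have h3 : (fun y : E N => z0 + ρ • y) ⁻¹' (d.loca a z0 ρ t ⁻¹' Z2)
        = d.Ha a t ⁻¹' ((fun y : E N => z0 + ρ • y) ⁻¹' Z2) := by
      ext y
      simp only [mem_preimage]
      have h4 : d.loca a z0 ρ t (z0 + ρ • y) = z0 + ρ • d.Ha a t y := by
        have := hloc (L y)
        rw [hLiL] at this
        exact this
      rw [h4]
    rw [h3, hHpre _ (hLc.measurable hZ2m), h2] at h1
    have hk : ENNReal.ofReal |(ρ ^ Module.finrank ℝ (E N))⁻¹| ≠ 0 := by
      rw [Ne, ENNReal.ofReal_eq_zero, not_le]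
      positivity
    exact ((ENNReal.mul_right_inj hk ENNReal.ofReal_ne_top).mp h1).symm
  -- the map `h`
  have hin : ∀ z ∈ D, hMa c d a z0 ρ t (c.ψ z) = c.ψ (d.loca a z0 ρ t z) := by
    intro z hz
    have hzV := hDV hz
    have h1 : c.ψ z ∈ c.W := (c.mapsψ z hzV).2
    unfold hMa
    rw [if_pos h1, c.left z hzV]
  have hout : ∀ x ∈ M, x ∉ S → hMa c d a z0 ρ t x = x := by
    intro x hx hxS
    unfold hMa
    split_ifs with hW
    · have h1 : c.ψ (c.φ x) = x := c.right x ⟨hx, hW⟩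
      have h2 : c.φ x ∉ D := fun h => hxS ⟨c.φ x, h, h1⟩
      have h3 : 1 ≤ d.q (Li (c.φ x)) := (not_le.mp h2).le
      rw [hloc, hHid t _ h3, hLLi, h1]
    · rfl
  have e1 : (hMa c d a z0 ρ t ⁻¹' A ∩ M) ∩ S = c.ψ '' (d.loca a z0 ρ t ⁻¹' Z2) := by
    ext x
    constructor
    · rintro ⟨⟨h1, h2⟩, z, hz, rfl⟩
      refine ⟨z, ⟨(hDloc z).mpr hz, ?_⟩, rfl⟩
      rw [mem_preimage, hin z hz] at h1
      exact h1
    · rintro ⟨z, ⟨h1, h2⟩, rfl⟩
      have hz := (hDloc z).mp h1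
      refine ⟨⟨?_, (c.mapsψ z (hDV hz)).1⟩, z, hz, rfl⟩
      rw [mem_preimage, hin z hz]
      exact h2
  have e2 : A ∩ S = c.ψ '' Z2 := by
    ext x
    constructor
    · rintro ⟨h1, z, hz, rfl⟩
      exact ⟨z, ⟨hz, h1⟩, rfl⟩
    · rintro ⟨z, ⟨h1, h2⟩, rfl⟩
      exact ⟨h2, z, h1, rfl⟩
  have e3 : (hMa c d a z0 ρ t ⁻¹' A ∩ M) \ S = (A \ S) ∩ M := by
    ext x
    constructor
    · rintro ⟨⟨h1, h2⟩, h3⟩
      rw [mem_preimage, hout x h2 h3] at h1
      exact ⟨⟨h1, h3⟩, h2⟩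
    · rintro ⟨⟨h1, h3⟩, h2⟩
      refine ⟨⟨?_, h2⟩, h3⟩
      rw [mem_preimage, hout x h2 h3]
      exact h1
  rw [← measure_inter_add_sdiff (hMa c d a z0 ρ t ⁻¹' A ∩ M) hSm, ← measure_inter_add_sdiff A hSm,
    e1, e2, e3, measure_inter_conull hV.null, hvol _ hZ1m hZ1V, hvol _ hZ2m hZ2V, hvolZ]

end Pool.Agent.Helper85.RZ
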